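import Mathlib

set_option autoImplicit false

/-!
Pure ring theory behind the maximality of almost stabilisers: a subgroup of the unit group of a
ring `E` with `n` orthogonal copies of `1` which contains the diagonal and permutation units and
one unit which is not monomial modulo `small` elements is the whole unit group.
-/

namespace Pool.Agent.helper46.AlmostStab

namespace Core

variable {E : Type*} [Ring E]

/-- `x` is the value of some unit in `H`. -/
def In (H : Subgroup Eˣ) (x : E) : Prop := ∃ u ∈ H, (u : E) = x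

lemma In.one {H : Subgroup Eˣ} : In H 1 := ⟨1, H.one_mem, rfl⟩

lemma In.mul {H : Subgroup Eˣ} {x y : E} (hx : In H x) (hy : In H y) : In H (x * y) := by
  obtain ⟨u, hu, rfl⟩ := hx
  obtain ⟨v, hv, rfl⟩ := hy
  exact ⟨u * v, H.mul_mem hu hv, rfl⟩

lemma In.of_inv {H : Subgroup Eˣ} {x y : E} (hx : In H x) (h : x * y = 1) : In H y := by
  obtain ⟨u, hu, rfl⟩ := hx
  refine ⟨u⁻¹, H.inv_mem hu, ?_⟩
  calc ((u⁻¹ : Eˣ) : E) = ((u⁻¹ : Eˣ) : E) * (u * y) := by rw [h, mul_one]
    _ = y := by rw [← mul_assoc, Units.inv_mul, one_mul]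

lemma In.mem {H : Subgroup Eˣ} {g : Eˣ} (h : In H (g : E)) : g ∈ H := by
  obtain ⟨u, hu, he⟩ := h
  have : u = g := Units.ext he
  exact this ▸ hu

lemma In.neg_of {H : Subgroup Eˣ} {a : E} (ha : a * a = 0) (h : In H (1 + a)) :
    In H (1 - a) := by
  apply h.of_inv
  have : (1 + a) * (1 - a) = 1 - a * a := by noncomm_ring
  rw [this, ha, sub_zero]

lemma In.comm {H : Subgroup Eˣ} {a b : E} (ha : a * a = 0) (hb : b * b = 0) (hba : b * a = 0)
    (h1 : In H (1 + a)) (h2 : In H (1 + b)) : In H (1 + a * b) := by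
  have h := ((h1.mul h2).mul (h1.neg_of ha)).mul (h2.neg_of hb)
  have e : (1 + a) * (1 + b) * (1 - a) * (1 - b) = 1 + a * b := by
    have : (1 + a) * (1 + b) * (1 - a) * (1 - b) = 1 + a * b - a * a - b * b - b * a
      + a * a * b + b * a * b - a * (b * b) - a * (b * a) + a * (b * a) * b := by noncomm_ring
    rw [this, ha, hb, hba]
    simp
  rwa [e] at h

/-- Elementary fact (T). -/
lemma exT {S : E → Prop}
    (PI : ∀ x, ¬ S x → ∃ c d : E, d * x * c = 1)
    (S1 : ∀ x, S x → ∃ s v : E, s * x = 0 ∧ s * v = 1)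
    {i1 i2 p1 p2 : E} (h11 : p1 * i1 = 1) (h22 : p2 * i2 = 1) (h21 : p2 * i1 = 0) (t : E) :
    ∃ s s' u v : E, s' * t * s = 0 ∧ u * s = 1 ∧ s' * v = 1 := by
  by_cases ht : S t
  · obtain ⟨s', v, h1, h2⟩ := S1 t ht
    exact ⟨1, s', 1, v, by rw [h1, zero_mul], one_mul 1, h2⟩
  · obtain ⟨c, d, h⟩ := PI t ht
    refine ⟨c * i1, p2 * d, p1 * d * t, t * c * i2, ?_, ?_, ?_⟩
    · calc p2 * d * t * (c * i1) = p2 * (d * t * c) * i1 := by noncomm_ring
        _ = 0 := by rw [h, mul_one, h21]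
    · calc p1 * d * t * (c * i1) = p1 * (d * t * c) * i1 := by noncomm_ring
        _ = 1 := by rw [h, mul_one, h11]
    · calc p2 * d * (t * c * i2) = p2 * (d * t * c) * i2 := by noncomm_ring
        _ = 1 := by rw [h, mul_one, h22]

/-- Lemma R: the choice of square-zero elements. -/
lemma exR {S : E → Prop}
    (PI : ∀ x, ¬ S x → ∃ c d : E, d * x * c = 1)
    (S1 : ∀ x, S x → ∃ s v : E, s * x = 0 ∧ s * v = 1)
    {i1 i2 p1 p2 : E} (h11 : p1 * i1 = 1) (h22 : p2 * i2 = 1) (h21 : p2 * i1 = 0)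
    (a b b' : E) (ha : ¬ S a) (hb : ¬ S b) :
    ∃ n φ ψ C D : E, n * n = 0 ∧ φ * φ = 0 ∧ ψ * ψ = 0 ∧ φ * b' * n = 0 ∧
      D * (ψ * (b * n * a * φ)) * C = 1 := by
  obtain ⟨c', d', hac⟩ := PI a ha
  obtain ⟨c, d, hbc⟩ := PI b hb
  obtain ⟨s, s', u, v, e0, e1, e2⟩ := exT PI S1 h11 h22 h21 (d' * c)
  obtain ⟨s1, s1', u1, v1, f0, f1, f2⟩ := exT PI S1 h11 h22 h21 (c' * v)
  obtain ⟨s2, s2', u2, v2, g0, g1, g2⟩ := exT PI S1 h11 h22 h21 (s1' * b' * c * s)
  -- D' * (b n a φ) * C' = 1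
  obtain ⟨s3, s3', u3, v3, k0, k1, k2⟩ := exT PI S1 h11 h22 h21 (u1 * u2 * u * d)
  refine ⟨c * s * s2 * (s' * d'), c' * v * s1 * (s2' * s1'), s3 * (s3' * (u1 * u2 * u * d)),
    v1 * v2 * v3, u3, ?_, ?_, ?_, ?_, ?_⟩
  · calc c * s * s2 * (s' * d') * (c * s * s2 * (s' * d'))
        = c * s * s2 * (s' * (d' * c) * s) * (s2 * (s' * d')) := by noncomm_ring
      _ = 0 := by rw [e0]; simp
  · calc c' * v * s1 * (s2' * s1') * (c' * v * s1 * (s2' * s1'))
        = c' * v * s1 * s2' * (s1' * (c' * v) * s1) * (s2' * s1') := by noncomm_ring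
      _ = 0 := by rw [f0]; simp
  · calc s3 * (s3' * (u1 * u2 * u * d)) * (s3 * (s3' * (u1 * u2 * u * d)))
        = s3 * (s3' * (u1 * u2 * u * d) * s3) * (s3' * (u1 * u2 * u * d)) := by noncomm_ring
      _ = 0 := by rw [k0]; simp
  · calc c' * v * s1 * (s2' * s1') * b' * (c * s * s2 * (s' * d'))
        = c' * v * s1 * (s2' * (s1' * b' * c * s) * s2) * (s' * d') := by noncomm_ring
      _ = 0 := by rw [g0]; simp
  · calc u3 * (s3 * (s3' * (u1 * u2 * u * d)) *
          (b * (c * s * s2 * (s' * d')) * a * (c' * v * s1 * (s2' * s1')))) * (v1 * v2 * v3)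
        = (u3 * s3) * s3' * u1 * u2 * u * (d * b * c) * s * s2 * s' * (d' * a * c') * v * s1
            * s2' * (s1' * v1) * v2 * v3 := by noncomm_ring
      _ = s3' * u1 * u2 * (u * s) * s2 * (s' * v) * s1 * (s2' * v2) * v3 := by
            rw [k1, hbc, hac, f2]; noncomm_ring
      _ = s3' * u1 * (u2 * s2) * s1 * v3 := by rw [e1, e2, g2]; noncomm_ring
      _ = s3' * (u1 * s1) * v3 := by rw [g1]; noncomm_ring
      _ = 1 := by rw [f1, mul_one, k2]

/-- Two-block theorem. -/
theorem twoBlock {S : E → Prop} {H : Subgroup Eˣ}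
    (PI : ∀ x, ¬ S x → ∃ c d : E, d * x * c = 1)
    (S2 : ∀ x, S x → ∃ k u : E, x * k = 0 ∧ u * k = 1)
    (Sl : ∀ x y, S x → S (x * y))
    {i1 i2 p1 p2 : E} (h11 : p1 * i1 = 1) (h22 : p2 * i2 = 1) (h21 : p2 * i1 = 0)
    (h12 : p1 * i2 = 0) (hs : i1 * p1 + i2 * p2 = 1)
    (hE12 : ∀ r, In H (1 + i1 * r * p2)) (hE21 : ∀ r, In H (1 + i2 * r * p1))
    (hd : ∀ u : Eˣ, In H (i1 * u * p1 + i2 * p2)) : H = ⊤ := by
  have A11 : ∀ x, p1 * (i1 * x) = x := fun x => by rw [← mul_assoc, h11, one_mul]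
  have A22 : ∀ x, p2 * (i2 * x) = x := fun x => by rw [← mul_assoc, h22, one_mul]
  have A21 : ∀ x, p2 * (i1 * x) = 0 := fun x => by rw [← mul_assoc, h21, zero_mul]
  have A12 : ∀ x, p1 * (i2 * x) = 0 := fun x => by rw [← mul_assoc, h12, zero_mul]
  have hs' : ∀ x, i1 * (p1 * x) + i2 * (p2 * x) = x := fun x => by
    rw [← mul_assoc, ← mul_assoc, ← add_mul, hs, one_mul]
  -- the swap
  have ht : In H (i1 * p2 - i2 * p1) := by
    have h := ((hE12 1).mul (hE21 (-1))).mul (hE12 1)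
    have e : (1 + i1 * 1 * p2) * (1 + i2 * (-1) * p1) * (1 + i1 * 1 * p2)
        = i1 * p2 - i2 * p1 := by
      have e1 : (1 + i1 * 1 * p2) * (1 + i2 * (-1) * p1) * (1 + i1 * 1 * p2)
        = 1 + i1 * p2 - i2 * p1 + i1 * p2 - i1 * p1
          - i2 * p2 - i1 * p2 := by
        simp only [mul_add, add_mul, mul_sub, sub_mul, mul_assoc, A11, A22, A21, A12, mul_one,
          one_mul, mul_zero, zero_mul, mul_neg, neg_mul, h11, h22, h12, h21]
        abel
      rw [e1]
      have : (1 : E) - (i1 * p1 + i2 * p2) = 0 := by rw [hs, sub_self]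
      calc _ = (1 : E) - (i1 * p1 + i2 * p2) + (i1 * p2 - i2 * p1) := by abel
        _ = _ := by rw [this, zero_add]
    rwa [e] at h
  have ht' : In H (i2 * p1 - i1 * p2) := by
    apply ht.of_inv
    simp only [mul_add, add_mul, mul_sub, sub_mul, mul_assoc, A11, A22, A21, A12, mul_one,
          one_mul, mul_zero, zero_mul, mul_neg, neg_mul, h11, h22, h12, h21]
    rw [← hs]; abel
  have hd2 : ∀ u : Eˣ, In H (i1 * p1 + i2 * u * p2) := by
    intro u
    have h := (ht'.mul (hd u)).mul ht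
    have e : (i2 * p1 - i1 * p2) * (i1 * u * p1 + i2 * p2) * (i1 * p2 - i2 * p1)
      = i1 * p1 + i2 * u * p2 := by
      simp only [mul_add, add_mul, mul_sub, sub_mul, mul_assoc, A11, A22, A21, A12, mul_one,
          one_mul, mul_zero, zero_mul, mul_neg, neg_mul, h11, h22, h12, h21]
      abel
    rwa [e] at h
  -- pointwise stabiliser
  have hP : ∀ g : Eˣ, (g : E) * i1 = i1 → g ∈ H := by
    intro g hg
    have hg' : ((g⁻¹ : Eˣ) : E) * i1 = i1 := by
      calc ((g⁻¹ : Eˣ) : E) * i1 = ((g⁻¹ : Eˣ) : E) * (g * i1) := by rw [hg]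
        _ = i1 := by rw [← mul_assoc, Units.inv_mul, one_mul]
    have inv1 : (p2 * g * i2) * (p2 * ((g⁻¹ : Eˣ) : E) * i2) = 1 := by
      calc (p2 * g * i2) * (p2 * ((g⁻¹ : Eˣ) : E) * i2)
          = p2 * g * (i1 * p1 + i2 * p2) * ((g⁻¹ : Eˣ) : E) * i2
            - p2 * (g * i1) * (p1 * ((g⁻¹ : Eˣ) : E) * i2) := by noncomm_ring
        _ = p2 * (g * ((g⁻¹ : Eˣ) : E)) * i2 := by rw [hs, hg, h21]; noncomm_ring
        _ = 1 := by rw [Units.mul_inv, mul_one, h22]
    have inv2 : (p2 * ((g⁻¹ : Eˣ) : E) * i2) * (p2 * g * i2) = 1 := by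
      calc (p2 * ((g⁻¹ : Eˣ) : E) * i2) * (p2 * g * i2)
          = p2 * ((g⁻¹ : Eˣ) : E) * (i1 * p1 + i2 * p2) * g * i2
            - p2 * (((g⁻¹ : Eˣ) : E) * i1) * (p1 * g * i2) := by noncomm_ring
        _ = p2 * (((g⁻¹ : Eˣ) : E) * g) * i2 := by rw [hs, hg', h21]; noncomm_ring
        _ = 1 := by rw [Units.inv_mul, mul_one, h22]
    have h := (hd2 ⟨p2 * g * i2, p2 * ((g⁻¹ : Eˣ) : E) * i2, inv1, inv2⟩).mul (hE12 (p1 * g * i2))
    apply In.mem
    have e : (i1 * p1 + i2 * (p2 * g * i2) * p2) * (1 + i1 * (p1 * g * i2) * p2) = g := by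
      have e1 : (i1 * p1 + i2 * (p2 * g * i2) * p2) * (1 + i1 * (p1 * g * i2) * p2)
        = i1 * p1 + (i1 * p1 + i2 * p2) * g * (i2 * p2) := by
        simp only [mul_add, add_mul, mul_sub, sub_mul, mul_assoc, A11, A22, A21, A12, mul_one,
          one_mul, mul_zero, zero_mul, mul_neg, neg_mul, h11, h22, h12, h21]
        abel
      rw [e1, hs, one_mul]
      calc i1 * p1 + (g : E) * (i2 * p2) = (g : E) * i1 * p1 + (g : E) * (i2 * p2) := by rw [hg]
        _ = (g : E) * (i1 * p1 + i2 * p2) := by noncomm_ring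
        _ = g := by rw [hs, mul_one]
    simpa [e] using h
  -- transitivity
  have hT : ∀ w u : E, u * (p2 * w) = 1 → ∃ h ∈ H, ((h : Eˣ) : E) * i1 = w := by
    intro w u hw
    have h1 := hE12 ((1 - p1 * w) * u)
    have h2 := hE21 (-(p2 * w))
    obtain ⟨k, hk, hk'⟩ := h2.mul h1
    refine ⟨k⁻¹, H.inv_mem hk, ?_⟩
    have e1 : (1 + i1 * ((1 - p1 * w) * u) * p2) * w = i1 + i2 * (p2 * w) := by
      calc (1 + i1 * ((1 - p1 * w) * u) * p2) * w
          = w + i1 * ((1 - p1 * w) * (u * (p2 * w))) := by noncomm_ring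
        _ = w + i1 * (1 - p1 * w) := by rw [hw, mul_one]
        _ = (i1 * (p1 * w) + i2 * (p2 * w)) + i1 * (1 - p1 * w) := by rw [hs']
        _ = _ := by noncomm_ring
    have e2 : (k : E) * w = i1 := by
      rw [hk', mul_assoc, e1]
      simp only [mul_add, add_mul, mul_sub, sub_mul, mul_assoc, A11, A22, A21, A12, mul_one,
          one_mul, mul_zero, zero_mul, mul_neg, neg_mul, h11, h22, h12, h21]
      abel
    calc ((k⁻¹ : Eˣ) : E) * i1 = ((k⁻¹ : Eˣ) : E) * ((k : E) * w) := by rw [e2]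
      _ = w := by rw [← mul_assoc, Units.inv_mul, one_mul]
  -- conclusion
  rw [eq_top_iff]
  intro g _
  have key : ∃ w u u' : E, u * (p2 * w) = 1 ∧ u' * (p2 * (((g⁻¹ : Eˣ) : E) * w)) = 1 := by
    by_cases ht : S (p2 * ((g⁻¹ : Eˣ) : E) * i2)
    · by_cases ht' : S (p2 * (g : E) * i2)
      · obtain ⟨k, u, hk1, hk2⟩ := S2 _ ht
        obtain ⟨k', u', hk1', hk2'⟩ := S2 _ (Sl _ k ht')
        have z1 : p2 * (((g⁻¹ : Eˣ) : E) * (i2 * (k * k'))) = 0 := by
          calc p2 * (((g⁻¹ : Eˣ) : E) * (i2 * (k * k')))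
            = p2 * ((g⁻¹ : Eˣ) : E) * i2 * k * k' := by noncomm_ring
            _ = 0 := by rw [hk1, zero_mul]
        have z2 : p2 * ((g : E) * (i2 * (k * k'))) = 0 := by
          calc p2 * ((g : E) * (i2 * (k * k')))
            = p2 * (g : E) * i2 * k * k' := by noncomm_ring
            _ = 0 := by rw [hk1']
        have z3 : u' * u * (k * k') = 1 := by
          calc u' * u * (k * k') = u' * (u * k) * k' := by noncomm_ring
            _ = 1 := by rw [hk2, mul_one, hk2']
        refine ⟨(i2 + g * i2) * (k * k'), u' * u, u' * u, ?_, ?_⟩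
        · have : p2 * ((i2 + g * i2) * (k * k')) = k * k' := by
            calc p2 * ((i2 + g * i2) * (k * k'))
              = p2 * (i2 * (k * k')) + p2 * ((g : E) * (i2 * (k * k'))) := by noncomm_ring
              _ = k * k' := by rw [z2, A22, add_zero]
          rw [this, z3]
        · have : p2 * (((g⁻¹ : Eˣ) : E) * ((i2 + g * i2) * (k * k'))) = k * k' := by
            calc p2 * (((g⁻¹ : Eˣ) : E) * ((i2 + g * i2) * (k * k')))
              = p2 * (((g⁻¹ : Eˣ) : E) * (i2 * (k * k'))) +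
                p2 * ((((g⁻¹ : Eˣ) : E) * g) * (i2 * (k * k'))) := by noncomm_ring
              _ = k * k' := by rw [z1, Units.inv_mul, one_mul, A22, zero_add]
          rw [this, z3]
      · obtain ⟨c, d, h⟩ := PI _ ht'
        refine ⟨g * i2 * c, d, d * (p2 * g * i2), ?_, ?_⟩
        · rw [← h]; noncomm_ring
        · calc d * (p2 * g * i2) * (p2 * (((g⁻¹ : Eˣ) : E) * (g * i2 * c)))
            = d * (p2 * g * i2) * (p2 * ((((g⁻¹ : Eˣ) : E) * g) * (i2 * c))) := by noncomm_ring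
            _ = d * (p2 * g * i2) * c := by rw [Units.inv_mul, one_mul, A22]
            _ = 1 := h
    · obtain ⟨c, d, h⟩ := PI _ ht
      refine ⟨i2 * c, d * (p2 * ((g⁻¹ : Eˣ) : E) * i2), d, ?_, ?_⟩
      · rw [A22, h]
      · rw [← h]; noncomm_ring
  obtain ⟨w, u, u', hw, hw'⟩ := key
  obtain ⟨h, hh, eh⟩ := hT w u hw
  obtain ⟨h', hh', eh'⟩ := hT _ u' hw'
  have hmem : h'⁻¹ * g⁻¹ * h ∈ H := by
    apply hP
    push_cast
    calc ((h'⁻¹ : Eˣ) : E) * ((g⁻¹ : Eˣ) : E) * (h : E) * i1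
        = ((h'⁻¹ : Eˣ) : E) * (((g⁻¹ : Eˣ) : E) * ((h : E) * i1)) := by noncomm_ring
      _ = ((h'⁻¹ : Eˣ) : E) * ((h' : E) * i1) := by rw [eh, eh']
      _ = i1 := by rw [← mul_assoc, Units.inv_mul, one_mul]
  have h2 : g⁻¹ ∈ H := by
    have := H.mul_mem (H.mul_mem hh' hmem) (H.inv_mem hh)
    have e : h' * (h'⁻¹ * g⁻¹ * h) * h⁻¹ = g⁻¹ := by group
    rwa [e] at this
  simpa using H.inv_mem h2

/-- n-block theorem. -/
theorem nBlock {n : ℕ} {S : E → Prop} {H : Subgroup Eˣ}
    (PI : ∀ x, ¬ S x → ∃ c d : E, d * x * c = 1)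
    (S1 : ∀ x, S x → ∃ s v : E, s * x = 0 ∧ s * v = 1)
    (S2 : ∀ x, S x → ∃ k u : E, x * k = 0 ∧ u * k = 1)
    (Sl : ∀ x y, S x → S (x * y))
    (ι π : Fin n → E) (hii : ∀ i, π i * ι i = 1) (hij : ∀ i j, i ≠ j → π i * ι j = 0)
    (hs : ∑ i, ι i * π i = 1)
    (hY : ∀ i0 : Fin n, ∃ i2 p2 : E, p2 * i2 = 1 ∧ p2 * ι i0 = 0 ∧ π i0 * i2 = 0 ∧
      ι i0 * π i0 + i2 * p2 = 1)
    (hdiag : ∀ (i : Fin n) (u : Eˣ), In H (1 + ι i * (u - 1) * π i))
    (hperm : ∀ σ : Equiv.Perm (Fin n), In H (∑ i, ι (σ i) * π i))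
    (g : Eˣ) (hg : g ∈ H) {i j l : Fin n} (hjl : j ≠ l) (hb : ¬ S (π j * g * ι i))
    (ha : ¬ S (π i * ((g⁻¹ : Eˣ) : E) * ι l)) : H = ⊤ := by
  have Aii : ∀ i x, π i * (ι i * x) = x := fun i x => by rw [← mul_assoc, hii, one_mul]
  have Aij : ∀ i j x, i ≠ j → π i * (ι j * x) = 0 := fun i j x h => by
    rw [← mul_assoc, hij i j h, zero_mul]
  have hlj : l ≠ j := hjl.symm
  have hsq : ∀ (i : Fin n) (N : E), N * N = 0 → In H (1 + ι i * N * π i) := by
    intro i N hN
    have h := hdiag i ⟨1 + N, 1 - N, by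
      have : (1 + N) * (1 - N) = 1 - N * N := by noncomm_ring
      rw [this, hN, sub_zero], by
      have : (1 - N) * (1 + N) = 1 - N * N := by noncomm_ring
      rw [this, hN, sub_zero]⟩
    simpa using h
  obtain ⟨N, φ, ψ, C, D, hN, hφ, hψ, hφN, hD⟩ := exR (S := S) PI S1 (hii l) (hii j) (hij j l hjl)
    (π i * ((g⁻¹ : Eˣ) : E) * ι l) (π j * g * ι i) (π l * g * ι i) ha hb
  have sq : ∀ (i : Fin n) (N : E), N * N = 0 → (ι i * N * π i) * (ι i * N * π i) = 0 := by
    intro i N hN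
    simp only [mul_assoc, Aii]
    rw [← mul_assoc N, hN, zero_mul, mul_zero]
  -- step A
  obtain ⟨y, hy⟩ : ∃ y : E, y = g * (ι i * N * π i) * ((g⁻¹ : Eˣ) : E) := ⟨_, rfl⟩
  have hyy : y * y = 0 := by
    rw [hy]
    calc (g : E) * (ι i * N * π i) * ((g⁻¹ : Eˣ) : E) * (g * (ι i * N * π i) * ((g⁻¹ : Eˣ) : E))
        = (g : E) * (ι i * N * π i) * (((g⁻¹ : Eˣ) : E) * g) * ((ι i * N * π i)
          * ((g⁻¹ : Eˣ) : E)) := by noncomm_ring
      _ = (g : E) * ((ι i * N * π i) * (ι i * N * π i)) * ((g⁻¹ : Eˣ) : E) := by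
          rw [Units.inv_mul]; noncomm_ring
      _ = 0 := by rw [sq i N hN]; simp
  have hyH : In H (1 + y) := by
    have hgI : In H (g : E) := ⟨g, hg, rfl⟩
    have hgI' : In H ((g⁻¹ : Eˣ) : E) := ⟨g⁻¹, H.inv_mem hg, rfl⟩
    have h := (hgI.mul (hsq i N hN)).mul hgI'
    have e : (g : E) * (1 + ι i * N * π i) * ((g⁻¹ : Eˣ) : E) = 1 + y := by
      rw [hy]
      calc (g : E) * (1 + ι i * N * π i) * ((g⁻¹ : Eˣ) : E)
          = (g : E) * ((g⁻¹ : Eˣ) : E) + g * (ι i * N * π i) * ((g⁻¹ : Eˣ) : E) := by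
            noncomm_ring
        _ = _ := by rw [Units.mul_inv]
    rwa [e] at h
  have hφy : (ι l * φ * π l) * y = 0 := by
    rw [hy]
    calc (ι l * φ * π l) * (g * (ι i * N * π i) * ((g⁻¹ : Eˣ) : E))
        = ι l * (φ * (π l * g * ι i) * N) * π i * ((g⁻¹ : Eˣ) : E) := by noncomm_ring
      _ = 0 := by rw [hφN]; simp
  have hz := hyH.comm hyy (sq l φ hφ) hφy (hsq l φ hφ)
  have hzz : (y * (ι l * φ * π l)) * (y * (ι l * φ * π l)) = 0 := by
    calc (y * (ι l * φ * π l)) * (y * (ι l * φ * π l))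
        = y * ((ι l * φ * π l) * y) * (ι l * φ * π l) := by noncomm_ring
      _ = 0 := by rw [hφy]; simp
  have hzψ : (y * (ι l * φ * π l)) * (ι j * ψ * π j) = 0 := by
    simp only [mul_assoc, Aij l j _ hlj, mul_zero]
  have hx := (hsq j ψ hψ).comm (sq j ψ hψ) hzz hzψ hz
  obtain ⟨x, hxd⟩ : ∃ x : E, x = ψ * ((π j * g * ι i) * N * (π i * ((g⁻¹ : Eˣ) : E) * ι l) * φ) :=
    ⟨_, rfl⟩
  have hxH : In H (1 + ι j * x * π l) := by
    have e : (ι j * ψ * π j) * (y * (ι l * φ * π l)) = ι j * x * π l := by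
      rw [hy, hxd]; noncomm_ring
    rwa [e] at hx
  rw [← hxd] at hD
  -- step B
  let X : AddSubgroup E :=
    { carrier := {r | In H (1 + ι j * r * π l)}
      zero_mem' := by simpa using (In.one (H := H))
      add_mem' := by
        intro r r' h h'
        have := In.mul h h'
        have e : (1 + ι j * r * π l) * (1 + ι j * r' * π l) = 1 + ι j * (r + r') * π l := by
          have : (1 + ι j * r * π l) * (1 + ι j * r' * π l) = 1 + ι j * (r + r') * π l
            + ι j * r * (π l * ι j) * (r' * π l) := by noncomm_ring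
          rw [this, hij l j hlj]; simp
        simpa [e] using this
      neg_mem' := by
        intro r h
        have hsq0 : (ι j * r * π l) * (ι j * r * π l) = 0 := by
          simp only [mul_assoc, Aij l j _ hlj, mul_zero]
        have := In.neg_of hsq0 h
        have e : 1 - ι j * r * π l = 1 + ι j * (-r) * π l := by noncomm_ring
        simpa [e] using this }
  have memX : ∀ r, r ∈ X ↔ In H (1 + ι j * r * π l) := fun r => Iff.rfl
  have hXsq : ∀ r : E, (ι j * r * π l) * (ι j * r * π l) = 0 := fun r => by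
    simp only [mul_assoc, Aij l j _ hlj, mul_zero]
  have XL0 : ∀ r ∈ X, ∀ c : E, c * c = 0 → c * r ∈ X := by
    intro r hr c hc
    have h := (hsq j c hc).comm (sq j c hc) (hXsq r)
      (by simp only [mul_assoc, Aij l j _ hlj, mul_zero]) hr
    have e : ι j * c * π j * (ι j * r * π l) = ι j * (c * r) * π l := by
      simp only [mul_assoc, Aii]
    rw [e] at h
    exact h
  have XR0 : ∀ r ∈ X, ∀ c : E, c * c = 0 → r * c ∈ X := by
    intro r hr c hc
    have h := In.comm (hXsq r) (sq l c hc)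
      (by simp only [mul_assoc, Aij l j _ hlj, mul_zero]) hr (hsq l c hc)
    have e : ι j * r * π l * (ι l * c * π l) = ι j * (r * c) * π l := by
      simp only [mul_assoc, Aii]
    rw [e] at h
    exact h
  have sqz : ∀ (a b : Fin n) (r : E), a ≠ b → (ι a * r * π b) * (ι a * r * π b) = 0 := by
    intro a b r hab
    simp only [mul_assoc, Aij b a _ hab.symm, mul_zero]
  have hexp : ∀ c : E, c = ∑ a, ∑ b, ι a * (π a * c * ι b) * π b := by
    intro c
    calc c = (∑ a, ι a * π a) * c * (∑ b, ι b * π b) := by rw [hs, one_mul, mul_one]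
      _ = ∑ a, ∑ b, ι a * (π a * c * ι b) * π b := by
        rw [Finset.sum_mul, Finset.sum_mul]
        refine Finset.sum_congr rfl fun a _ => ?_
        rw [Finset.mul_sum]
        refine Finset.sum_congr rfl fun b _ => ?_
        noncomm_ring
  have hne : ∀ a : Fin n, ∃ b, a ≠ b := by
    intro a
    by_cases h : a = j
    · exact ⟨l, h ▸ hjl⟩
    · exact ⟨j, h⟩
  have XL : ∀ r ∈ X, ∀ c : E, c * r ∈ X := by
    intro r hr c
    rw [hexp c, Finset.sum_mul]
    refine X.sum_mem fun a _ => ?_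
    rw [Finset.sum_mul]
    refine X.sum_mem fun b _ => ?_
    by_cases hab : a = b
    · subst hab
      obtain ⟨b, hb⟩ := hne a
      have e : ι a * (π a * c * ι a) * π a * r
          = (ι a * (π a * c * ι a) * π b) * ((ι b * 1 * π a) * r) := by
        simp only [mul_assoc, Aii, one_mul]
      rw [e]
      exact XL0 _ (XL0 _ hr _ (sqz b a 1 hb.symm)) _ (sqz a b _ hb)
    · exact XL0 _ hr _ (sqz a b _ hab)
  have XR : ∀ r ∈ X, ∀ c : E, r * c ∈ X := by
    intro r hr c
    rw [hexp c, Finset.mul_sum]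
    refine X.sum_mem fun a _ => ?_
    rw [Finset.mul_sum]
    refine X.sum_mem fun b _ => ?_
    by_cases hab : a = b
    · subst hab
      obtain ⟨b, hb⟩ := hne a
      have e : r * (ι a * (π a * c * ι a) * π a)
          = (r * (ι a * (π a * c * ι a) * π b)) * (ι b * 1 * π a) := by
        simp only [mul_assoc, Aii, one_mul]
      rw [e]
      exact XR0 _ (XR0 _ hr _ (sqz a b _ hb)) _ (sqz b a 1 hb.symm)
    · exact XR0 _ hr _ (sqz a b _ hab)
  have hX : ∀ r, In H (1 + ι j * r * π l) := by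
    intro r
    have h1 : r * (D * x * C) ∈ X := by
      have := XR _ (XL x hxH (r * D)) C
      have e : r * D * x * C = r * (D * x * C) := by noncomm_ring
      rwa [e] at this
    rw [hD, mul_one] at h1
    exact h1
  -- step D : all positions
  have hall : ∀ (j' l' : Fin n), j' ≠ l' → ∀ r, In H (1 + ι j' * r * π l') := by
    intro j' l' hj'l' r
    obtain ⟨σ, hσj, hσl⟩ : ∃ σ : Equiv.Perm (Fin n), σ j = j' ∧ σ l = l' := by
      refine ⟨Equiv.swap (Equiv.swap j j' l) l' * Equiv.swap j j', ?_, ?_⟩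
      · rw [Equiv.Perm.mul_apply, Equiv.swap_apply_left]
        apply Equiv.swap_apply_of_ne_of_ne
        · intro h
          have : Equiv.swap j j' j = Equiv.swap j j' l := by rw [Equiv.swap_apply_left]; exact h
          exact hjl ((Equiv.swap j j').injective this)
        · exact hj'l'
      · rw [Equiv.Perm.mul_apply, Equiv.swap_apply_left]
    have h1 := hperm σ
    have h2 := hperm σ⁻¹
    have h := (h1.mul (hX r)).mul h2
    have pι : ∀ (τ : Equiv.Perm (Fin n)) (a : Fin n), (∑ i, ι (τ i) * π i) * ι a = ι (τ a) := by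
      intro τ a
      rw [Finset.sum_mul, Finset.sum_eq_single a]
      · rw [mul_assoc, hii, mul_one]
      · intro b _ hb
        rw [mul_assoc, hij b a hb, mul_zero]
      · intro h; exact absurd (Finset.mem_univ a) h
    have pπ : ∀ (τ : Equiv.Perm (Fin n)) (a : Fin n),
        π a * (∑ i, ι (τ i) * π i) = π (τ⁻¹ a) := by
      intro τ a
      rw [Finset.mul_sum, Finset.sum_eq_single (τ⁻¹ a)]
      · have : τ (τ⁻¹ a) = a := by simp
        rw [this, ← mul_assoc, hii, one_mul]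
      · intro b _ hb
        rw [← mul_assoc, hij a (τ b), zero_mul]
        rintro rfl
        apply hb; simp
      · intro h; exact absurd (Finset.mem_univ _) h
    have pp : (∑ i, ι (σ i) * π i) * (∑ i, ι (σ⁻¹ i) * π i) = 1 := by
      calc (∑ i, ι (σ i) * π i) * (∑ i, ι (σ⁻¹ i) * π i)
          = (∑ i, ι (σ i) * π i) * (∑ i, ι (σ⁻¹ i) * π i) * (∑ a, ι a * π a) := by
            rw [hs, mul_one]
        _ = ∑ a, ι a * π a := by
            rw [Finset.mul_sum]
            refine Finset.sum_congr rfl fun a _ => ?_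
            calc (∑ i, ι (σ i) * π i) * (∑ i, ι (σ⁻¹ i) * π i) * (ι a * π a)
                = (∑ i, ι (σ i) * π i) * ((∑ i, ι (σ⁻¹ i) * π i) * ι a) * π a := by
                  simp only [mul_assoc]
              _ = ι a * π a := by rw [pι, pι]; simp
        _ = 1 := hs
    have e : (∑ i, ι (σ i) * π i) * (1 + ι j * r * π l) * (∑ i, ι (σ⁻¹ i) * π i)
        = 1 + ι j' * r * π l' := by
      calc (∑ i, ι (σ i) * π i) * (1 + ι j * r * π l) * (∑ i, ι (σ⁻¹ i) * π i)
          = (∑ i, ι (σ i) * π i) * (∑ i, ι (σ⁻¹ i) * π i)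
            + ((∑ i, ι (σ i) * π i) * ι j) * r * (π l * (∑ i, ι (σ⁻¹ i) * π i)) := by
            noncomm_ring
        _ = 1 + ι j' * r * π l' := by
            rw [pp, pι, pπ, hσj]
            have : (σ⁻¹)⁻¹ l = l' := by rw [inv_inv, hσl]
            rw [this]
    rwa [e] at h
  -- step E
  have hU : ∀ f : E, f * ι j = 0 → In H (1 + ι j * f) := by
    intro f hf
    have key : ∀ s : Finset (Fin n), In H (1 + ι j * (∑ a ∈ s, f * ι a * π a)) := by
      intro s
      induction s using Finset.induction_on with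
      | empty => simpa using (In.one (H := H))
      | insert a s ha ih =>
        rw [Finset.sum_insert ha]
        by_cases haj : a = j
        · subst haj
          rw [hf, zero_mul, zero_add]; exact ih
        · have h1 := hall j a (Ne.symm haj) (f * ι a)
          have h2 := h1.mul ih
          have e0 : π a * ι j = 0 := hij a j haj
          have e : (1 + ι j * (f * ι a) * π a) * (1 + ι j * (∑ a ∈ s, f * ι a * π a))
              = 1 + ι j * (f * ι a * π a + ∑ a ∈ s, f * ι a * π a) := by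
            calc (1 + ι j * (f * ι a) * π a) * (1 + ι j * (∑ a ∈ s, f * ι a * π a))
                = 1 + ι j * (f * ι a * π a + ∑ a ∈ s, f * ι a * π a)
                  + ι j * (f * ι a) * (π a * ι j) * (∑ a ∈ s, f * ι a * π a) := by noncomm_ring
              _ = _ := by rw [e0]; simp
          rwa [e] at h2
    have := key Finset.univ
    have e : ∑ a, f * ι a * π a = f := by
      calc ∑ a, f * ι a * π a = f * ∑ a, ι a * π a := by
            rw [Finset.mul_sum]; simp only [mul_assoc]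
        _ = f := by rw [hs, mul_one]
    rwa [e] at this
  have hU' : ∀ f : E, π j * f = 0 → In H (1 + f * π j) := by
    intro f hf
    have key : ∀ s : Finset (Fin n), In H (1 + (∑ a ∈ s, ι a * (π a * f)) * π j) := by
      intro s
      induction s using Finset.induction_on with
      | empty => simpa using (In.one (H := H))
      | insert a s ha ih =>
        rw [Finset.sum_insert ha]
        by_cases haj : a = j
        · subst haj
          rw [hf, mul_zero, zero_add]; exact ih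
        · have h1 := hall a j haj (π a * f)
          have h2 := ih.mul h1
          have e0 : π j * ι a = 0 := hij j a (Ne.symm haj)
          have e : (1 + (∑ a ∈ s, ι a * (π a * f)) * π j) * (1 + ι a * (π a * f) * π j)
              = 1 + (ι a * (π a * f) + ∑ a ∈ s, ι a * (π a * f)) * π j := by
            calc (1 + (∑ a ∈ s, ι a * (π a * f)) * π j) * (1 + ι a * (π a * f) * π j)
                = 1 + (ι a * (π a * f) + ∑ a ∈ s, ι a * (π a * f)) * π j
                  + (∑ a ∈ s, ι a * (π a * f)) * (π j * ι a) * ((π a * f) * π j) := by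
                  noncomm_ring
              _ = _ := by rw [e0]; simp
          rwa [e] at h2
    have := key Finset.univ
    have e : ∑ a, ι a * (π a * f) = f := by
      calc ∑ a, ι a * (π a * f) = (∑ a, ι a * π a) * f := by
            rw [Finset.sum_mul]; simp only [mul_assoc]
        _ = f := by rw [hs, one_mul]
    rwa [e] at this
  -- step F
  obtain ⟨i2, p2, y1, y2, y3, y4⟩ := hY j
  refine twoBlock (S := S) PI S2 Sl (hii j) y1 y2 y3 y4 ?_ ?_ ?_
  · intro r
    have := hU (r * p2) (by rw [mul_assoc, y2, mul_zero])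
    rwa [← mul_assoc] at this
  · intro r
    exact hU' (i2 * r) (by rw [← mul_assoc, y3, zero_mul])
  · intro u
    have := hdiag j u
    have e : 1 + ι j * ((u : E) - 1) * π j = ι j * u * π j + i2 * p2 := by
      calc 1 + ι j * ((u : E) - 1) * π j = 1 - ι j * π j + ι j * u * π j := by noncomm_ring
        _ = (ι j * π j + i2 * p2) - ι j * π j + ι j * u * π j := by rw [y4]
        _ = _ := by abel
    rwa [e] at this

end Core

end Pool.Agent.helper46.AlmostStab
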